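import Pool.Agent.H29.DPX.GS

/-!
# DTP: Gauss sums of composite level
-/

set_option autoImplicit false

namespace Pool.DTP

open Complex Pool.DPC Pool.DPX

/-- Gauss sums of products of characters of coprime levels -/
theorem gauss_mul {a b : ℕ} (ha : a ≠ 0) (hb : b ≠ 0) (hab : a.Coprime b)
    (chi : DirichletCharacter ℂ a) (psi : DirichletCharacter ℂ b)
    (theta : DirichletCharacter ℂ (a * b))
    (h : ∀ x : ℕ, theta (x : ZMod (a * b)) = chi (x : ZMod a) * psi (x : ZMod b)) :
    gaussTau theta = chi (b : ZMod a) * psi (a : ZMod b) * gaussTau chi * gaussTau psi := by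
  have : NeZero a := ⟨ha⟩
  have : NeZero b := ⟨hb⟩
  have : NeZero (a * b) := ⟨Nat.mul_ne_zero ha hb⟩
  have ha0 : (a : ℂ) ≠ 0 := by exact_mod_cast ha
  have hb0 : (b : ℂ) ≠ 0 := by exact_mod_cast hb
  rw [gaussTau_eq theta, gaussSum]
  -- the bijection
  have hinj : Function.Injective (fun x : ZMod a × ZMod b =>
      ((b * x.1.val + a * x.2.val : ℕ) : ZMod (a * b))) := by
    rintro ⟨u, v⟩ ⟨u', v'⟩ huv
    have h1 : b * u.val + a * v.val ≡ b * u'.val + a * v'.val [MOD a * b] :=
      (ZMod.natCast_eq_natCast_iff _ _ _).1 huv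
    have h2 : b * u.val ≡ b * u'.val [MOD a] := by
      have h3 := h1.of_dvd (dvd_mul_right a b)
      have h4 : ∀ y z : ℕ, b * y + a * z ≡ b * y [MOD a] := fun y z => by
        rw [Nat.ModEq, Nat.add_mul_mod_self_left]
      exact ((h4 _ _).symm.trans h3).trans (h4 _ _)
    have h3 : a * v.val ≡ a * v'.val [MOD b] := by
      have h3 := h1.of_dvd (dvd_mul_left b a)
      have h4 : ∀ y z : ℕ, b * y + a * z ≡ a * z [MOD b] := fun y z => by
        rw [add_comm, Nat.ModEq, Nat.add_mul_mod_self_left]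
      exact ((h4 _ _).symm.trans h3).trans (h4 _ _)
    have h4 : u.val ≡ u'.val [MOD a] := Nat.ModEq.cancel_left_of_coprime hab h2
    have h5 : v.val ≡ v'.val [MOD b] := Nat.ModEq.cancel_left_of_coprime hab.symm h3
    rw [Nat.ModEq, Nat.mod_eq_of_lt (ZMod.val_lt u), Nat.mod_eq_of_lt (ZMod.val_lt u')] at h4
    rw [Nat.ModEq, Nat.mod_eq_of_lt (ZMod.val_lt v), Nat.mod_eq_of_lt (ZMod.val_lt v')] at h5
    exact Prod.ext (ZMod.val_injective a h4) (ZMod.val_injective b h5)
  have hcard : Fintype.card (ZMod a × ZMod b) = Fintype.card (ZMod (a * b)) := by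
    rw [Fintype.card_prod, ZMod.card, ZMod.card, ZMod.card]
  have hbij : Function.Bijective (fun x : ZMod a × ZMod b =>
      ((b * x.1.val + a * x.2.val : ℕ) : ZMod (a * b))) :=
    (Fintype.bijective_iff_injective_and_card _).2 ⟨hinj, hcard⟩
  rw [← hbij.sum_comp (fun y => theta y * ZMod.stdAddChar y), Fintype.sum_prod_type,
    gaussTau_eq chi, gaussTau_eq psi, gaussSum, gaussSum, mul_assoc (chi _ * psi _),
    Finset.sum_mul_sum, Finset.mul_sum]
  refine Finset.sum_congr rfl fun u _ => ?_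
  rw [Finset.mul_sum]
  refine Finset.sum_congr rfl fun v _ => ?_
  have hstd : ∀ {n : ℕ} [NeZero n] (x : ℕ), ZMod.stdAddChar (N := n) (x : ZMod n) =
      Complex.exp (2 * Real.pi * Complex.I * x / n) := fun {n} _ x => by
    have h1 := ZMod.stdAddChar_coe (N := n) (x : ℤ)
    rw [Int.cast_natCast, Int.cast_natCast] at h1
    exact h1
  have e1 : ZMod.stdAddChar (N := a * b) ((b * u.val + a * v.val : ℕ) : ZMod (a * b)) =
      ZMod.stdAddChar (N := a) u * ZMod.stdAddChar (N := b) v := by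
    have h1 : ZMod.stdAddChar (N := a) u = ZMod.stdAddChar (N := a) ((u.val : ℕ) : ZMod a) := by
      rw [ZMod.natCast_zmod_val]
    have h2 : ZMod.stdAddChar (N := b) v = ZMod.stdAddChar (N := b) ((v.val : ℕ) : ZMod b) := by
      rw [ZMod.natCast_zmod_val]
    rw [h1, h2, hstd, hstd, hstd, ← Complex.exp_add]
    congr 1
    push_cast
    field_simp
  have e2 : chi (((b * u.val + a * v.val : ℕ)) : ZMod a) = chi (b : ZMod a) * chi u := by
    rw [← map_mul]
    congr 1
    push_cast
    rw [ZMod.natCast_self, zero_mul, add_zero, ZMod.natCast_zmod_val]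
  have e3 : psi (((b * u.val + a * v.val : ℕ)) : ZMod b) = psi (a : ZMod b) * psi v := by
    rw [← map_mul]
    congr 1
    push_cast
    rw [ZMod.natCast_self, zero_mul, zero_add, ZMod.natCast_zmod_val]
  simp only
  rw [h, e1, e2, e3]
  ring

theorem gauss_mul' {a b f : ℕ} (hf : f = a * b) (ha : a ≠ 0) (hb : b ≠ 0) (hab : a.Coprime b)
    (chi : DirichletCharacter ℂ a) (psi : DirichletCharacter ℂ b)
    (theta : DirichletCharacter ℂ f)
    (h : ∀ x : ℕ, theta (x : ZMod f) = chi (x : ZMod a) * psi (x : ZMod b)) :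
    gaussTau theta = chi (b : ZMod a) * psi (a : ZMod b) * gaussTau chi * gaussTau psi := by
  subst hf
  exact gauss_mul ha hb hab chi psi theta h

theorem toDC_insert_val {D : Finset Nat.Primes} {p : Nat.Primes} (hp : p ∉ D) (φ : Ch) (x : ℕ) :
    toDC (insert p D) φ (x : ZMod (cn (insert p D))) =
      φ p (x : ZMod (p : ℕ)) * toDC D φ (x : ZMod (cn D)) := by
  have hcn : cn (insert p D) = (p : ℕ) * cn D := Finset.prod_insert hp
  by_cases h : ∀ l ∈ insert p D, ¬ (l : ℕ) ∣ x
  · rw [TD.toDC_nat _ φ x h, Finset.prod_insert hp,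
      TD.toDC_nat D φ x fun l hl => h l (Finset.mem_insert_of_mem hl)]
  · push Not at h
    obtain ⟨l, hl, hlx⟩ := h
    have h1 : ¬ IsUnit (x : ZMod (cn (insert p D))) := by
      rw [ZMod.isUnit_iff_coprime]
      intro h2
      exact TD.not_dvd_of_coprime_cn h2 l hl hlx
    rw [MulChar.map_nonunit _ h1]
    rcases Finset.mem_insert.1 hl with rfl | hl'
    · have h2 : ¬ IsUnit (x : ZMod (l : ℕ)) := by
        rw [ZMod.isUnit_iff_coprime]
        intro h3
        exact (Nat.Prime.coprime_iff_not_dvd l.2).1 h3.symm hlx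
      rw [MulChar.map_nonunit _ h2, zero_mul]
    · have h2 : ¬ IsUnit (x : ZMod (cn D)) := by
        rw [ZMod.isUnit_iff_coprime]
        intro h3
        exact TD.not_dvd_of_coprime_cn h3 l hl' hlx
      rw [MulChar.map_nonunit _ h2, mul_zero]

theorem gauss_insert {D : Finset Nat.Primes} {p : Nat.Primes} (hp : p ∉ D) (φ : Ch) :
    gaussTau (toDC (insert p D) φ) = φ p (cn D : ZMod (p : ℕ)) *
      toDC D φ ((p : ℕ) : ZMod (cn D)) * gaussTau (φ p) * gaussTau (toDC D φ) := by
  refine gauss_mul' (Finset.prod_insert hp) p.2.ne_zero (TD.cn_ne_zero D) ?_ (φ p) (toDC D φ) _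
    (toDC_insert_val hp φ)
  refine (Nat.Prime.coprime_iff_not_dvd p.2).2 fun h => hp ?_
  exact (TD.dvd_cn_iff D p).1 h

end Pool.DTP
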