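import Pool.Agent.H29.DPX.Defs

/-!
# DTP: traces of products, definitions
-/

set_option autoImplicit false

namespace Pool.DTP

open Polynomial Complex Pool.DPC Pool.DPX

/-- the functions `L_C(A, psi, z)`, `psi` in `Y`, are continued to `U` -/
def Continues {f : ℕ} (U : Set ℂ) (Y : Subgroup (DirichletCharacter ℂ f)) (A : Datum) : Prop :=
  ∀ psi ∈ Y, IsTwistedL A.P U psi (A.L f psi)

/-- `C` is isogenous to its twists by the characters in `Y`, and its dimension is a positive
multiple of the order of `Y`: for example `C = Res_(F/ℚ) E_F` -/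
structure IsInduced {f : ℕ} (Y : Subgroup (DirichletCharacter ℂ f)) (C : Datum) : Prop where
  pos : 0 < C.d
  dim : Nat.card Y ∣ C.d
  fac : ∀ chi ∈ Y, ∀ l : ℕ, l.Prime → ¬ l ∣ f → ∀ t : ℂ,
    aeval (chi (l : ZMod f) * t) (C.P l) = aeval t (C.P l)

/-- `B` has the invariants of `A × C^j` -/
structure IsProduct (A C : Datum) (j : ℕ) (B : Datum) : Prop where
  dim : B.d = A.d + j * C.d
  fac : ∀ l : ℕ, l.Prime → B.P l = A.P l * C.P l ^ j
  per : ∃ r : ℚ, r ≠ 0 ∧ B.Om = r * A.Om * C.Om ^ j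

end Pool.DTP
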