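import Mathlib

/-!
# DTP: linear algebra
-/

set_option autoImplicit false

namespace Pool.DTP

open Matrix

/-- A function on a finite set is a polynomial with coefficients in `k` in an injective function
`x`, if the sums of its products with the powers of `x`, and of the powers of `x`, are in `k`. -/
theorem la (k : IntermediateField ℚ ℂ) {n : ℕ} (x V : Fin n → ℂ) (hx : Function.Injective x)
    (h1 : ∀ i : ℕ, ∑ a, x a ^ i ∈ k) (h2 : ∀ j : ℕ, j < n → ∑ a, V a * x a ^ j ∈ k) :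
    ∃ c : Fin n → k, ∀ a, V a = ∑ j : Fin n, (c j : ℂ) * x a ^ (j : ℕ) := by
  obtain ⟨M, hM⟩ : ∃ M : Matrix (Fin n) (Fin n) ℂ, M = vandermonde x := ⟨_, rfl⟩
  have hdet : M.det ≠ 0 := by
    rw [hM]
    exact det_vandermonde_ne_zero_iff.2 hx
  have hMa : ∀ a j, M a j = x a ^ (j : ℕ) := fun a j => by rw [hM, vandermonde_apply]
  choose F hF using fun i => (⟨⟨_, h1 i⟩, rfl⟩ : ∃ y : k, (y : ℂ) = ∑ a, x a ^ i)
  choose b hb using fun j : Fin n =>
    (⟨⟨_, h2 j j.2⟩, rfl⟩ : ∃ y : k, (y : ℂ) = ∑ a, V a * x a ^ (j : ℕ))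
  obtain ⟨H, hH⟩ : ∃ H : Matrix (Fin n) (Fin n) k, H = Matrix.of fun i j : Fin n => F ((i : ℕ) + (j : ℕ)) :=
    ⟨_, rfl⟩
  have hHM : H.map (algebraMap k ℂ) = Mᵀ * M := by
    ext i j
    rw [Matrix.map_apply, Matrix.mul_apply, hH, Matrix.of_apply]
    change ((F ((i : ℕ) + (j : ℕ)) : k) : ℂ) = _
    rw [hF]
    refine Finset.sum_congr rfl fun a _ => ?_
    rw [Matrix.transpose_apply, hMa, hMa, pow_add]
  have hdetH : H.det ≠ 0 := by
    intro h0
    have h3 : (algebraMap k ℂ) H.det = (Mᵀ * M).det := by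
      rw [RingHom.map_det, ← hHM]
      rfl
    rw [h0, map_zero, Matrix.det_mul, Matrix.det_transpose] at h3
    exact mul_ne_zero hdet hdet h3.symm
  obtain ⟨c, hc⟩ : ∃ c : Fin n → k, c = H⁻¹.mulVec b := ⟨_, rfl⟩
  have hHc : H.mulVec c = b := by
    rw [hc, Matrix.mulVec_mulVec, Matrix.mul_nonsing_inv _ (isUnit_iff_ne_zero.2 hdetH),
      Matrix.one_mulVec]
  obtain ⟨W, hW⟩ : ∃ W : Fin n → ℂ, W = M.mulVec (fun j => (c j : ℂ)) := ⟨_, rfl⟩
  have h3 : Mᵀ.mulVec W = Mᵀ.mulVec V := by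
    rw [hW, Matrix.mulVec_mulVec, ← hHM]
    funext i
    have h4 := congrFun hHc i
    have h5 : (H.map (algebraMap k ℂ)).mulVec (fun j => (c j : ℂ)) i =
        algebraMap k ℂ (H.mulVec c i) := by
      simp only [Matrix.mulVec, dotProduct, Matrix.map_apply, map_sum, map_mul]
      rfl
    rw [h5, h4]
    change ((b i : k) : ℂ) = _
    rw [hb]
    simp only [Matrix.mulVec, dotProduct, Matrix.transpose_apply, hMa]
    exact Finset.sum_congr rfl fun a _ => mul_comm _ _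
  have h4 : W = V := by
    have hinj := Matrix.mulVec_injective_of_isUnit
      ((Matrix.isUnit_iff_isUnit_det Mᵀ).2 (by
        rw [Matrix.det_transpose]
        exact isUnit_iff_ne_zero.2 hdet))
    exact hinj h3
  refine ⟨c, fun a => ?_⟩
  rw [← h4, hW]
  simp only [Matrix.mulVec, dotProduct, hMa]
  exact Finset.sum_congr rfl fun j _ => mul_comm _ _

end Pool.DTP
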