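import Pool.Agent.H29.DTP.Tr

/-!
# DTP: the theorem
-/

set_option autoImplicit false

namespace Pool.DTP

open Polynomial Complex Pool.DPC Pool.DPX

/-- the normalised values of a datum -/
noncomputable abbrev val {f : ℕ} (A : Datum) (psi : DirichletCharacter ℂ f) : ℂ :=
  normValue A.d A.Om (A.L f) psi

variable {k : IntermediateField ℚ ℂ} {f : ℕ} {Y : Subgroup (DirichletCharacter ℂ f)} {U : Set ℂ}

/-- the values of a product -/
theorem val_product (hU : Region U) {A C B : Datum} {j : ℕ} (hB : IsProduct A C j B)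
    (hAU : Continues U Y A) (hCU : Continues U Y C) (hBU : Continues U Y B) :
    ∃ r : ℚ, r ≠ 0 ∧ ∀ psi ∈ Y, val B psi = (r : ℂ) * (val A psi * val C psi ^ j) := by
  obtain ⟨r, hr, h⟩ := hB.per
  refine ⟨r⁻¹, inv_ne_zero hr, fun psi hpsi => ?_⟩
  have h1 := L_product hU hB hAU hCU hBU psi hpsi
  unfold val normValue
  rw [h1, hB.dim, h]
  push_cast
  rw [pow_add, pow_mul', div_pow, mul_pow, div_mul_div_comm, inv_mul_eq_div, div_div]
  congr 1
  · ring
  · ring

/-- the values of an induced variety -/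
theorem val_induced (hU : Region U) {C : Datum} (hC : IsInduced Y C) (hCU : Continues U Y C)
    (h0 : val C (1 : DirichletCharacter ℂ f) ≠ 0) (psi : DirichletCharacter ℂ f) (hpsi : psi ∈ Y) :
    val C psi = val C (1 : DirichletCharacter ℂ f) *
      (gaussTau psi⁻¹ ^ C.d * (gaussTau (1 : DirichletCharacter ℂ f)⁻¹ ^ C.d)⁻¹) := by
  have h1 := L_induced hU hC hCU psi hpsi
  unfold val normValue at h0 ⊢
  rw [h1]
  have h2 : gaussTau (1 : DirichletCharacter ℂ f)⁻¹ ^ C.d ≠ 0 := by
    intro h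
    rw [h, zero_mul, zero_div] at h0
    exact h0 rfl
  field_simp

theorem tau_ne_zero {C : Datum} (h0 : val C (1 : DirichletCharacter ℂ f) ≠ 0) :
    gaussTau (1 : DirichletCharacter ℂ f)⁻¹ ^ C.d ≠ 0 := by
  intro h
  unfold val normValue at h0
  rw [h, zero_mul, zero_div] at h0
  exact h0 rfl

/-- they are different -/
theorem val_injective (hf : Squarefree f) (hU : Region U) {C : Datum} (hC : IsInduced Y C)
    (hCU : Continues U Y C) (h0 : val C (1 : DirichletCharacter ℂ f) ≠ 0)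
    {psi psi' : DirichletCharacter ℂ f} (hpsi : psi ∈ Y) (hpsi' : psi' ∈ Y)
    (h : val C psi = val C psi') : psi = psi' := by
  rw [val_induced hU hC hCU h0 psi hpsi, val_induced hU hC hCU h0 psi' hpsi'] at h
  have h1 := mul_left_cancel₀ h0 h
  have h2 := mul_right_cancel₀ (inv_ne_zero (tau_ne_zero h0)) h1
  exact inv_injective (sep hf _ _ hC.pos h2)

theorem pow_card {psi : DirichletCharacter ℂ f} (hpsi : psi ∈ Y) : psi ^ Nat.card Y = 1 := by
  have h := pow_card_eq_one' (x := (⟨psi, hpsi⟩ : Y))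
  exact congrArg Subtype.val h

/-- powers of Gauss sums -/
theorem eq_gauss (hf : f ≠ 0) {m : ℕ} (hm : Nat.card Y ∣ m) {psi : DirichletCharacter ℂ f}
    (hpsi : psi ∈ Y) : EQ k (Nat.card Y * f) (fun s => gaussTau (psi ^ s)⁻¹ ^ m) := by
  have h1 : psi⁻¹ ^ (Nat.card Y * f) = 1 := by
    rw [pow_mul, pow_card (Y.inv_mem hpsi), one_pow]
  obtain ⟨x, hx, hx'⟩ := gauss_gal k hf (Dvd.intro_left _ rfl) psi⁻¹ h1
  refine ⟨x ^ m, ?_, fun g s hg => ?_⟩
  · push_cast
    rw [hx, pow_one]
  · have h2 := hx' g s hg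
    have hs : s.Coprime f := Nat.Coprime.coprime_dvd_right (Dvd.intro_left _ rfl) hg.1
    have h3 : ((psi⁻¹ ^ s) (s : ZMod f)) ^ m = 1 := by
      rw [← ZMod.coe_unitOfCoprime s hs, ← MulChar.pow_apply_coe, ← pow_mul, mul_comm, pow_mul]
      obtain ⟨c, rfl⟩ := hm
      rw [pow_mul, pow_card (Y.inv_mem hpsi), one_pow, one_pow, MulChar.one_apply_coe]
    rw [inv_pow] at h2 h3
    beta_reduce
    rw [← h2, mul_pow, map_pow]
    push_cast
    rw [h3, one_mul]

theorem eq_val (hf : f ≠ 0) (hU : Region U) {C : Datum} (hC : IsInduced Y C)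
    (hCU : Continues U Y C) (hk : val C (1 : DirichletCharacter ℂ f) ∈ k)
    (h0 : val C (1 : DirichletCharacter ℂ f) ≠ 0) {psi : DirichletCharacter ℂ f} (hpsi : psi ∈ Y) :
    EQ k (Nat.card Y * f) (fun s => val C (psi ^ s)) := by
  have h1 := eq_gauss (k := k) hf hC.dim hpsi
  have h2 := eq_gauss (k := k) hf hC.dim Y.one_mem
  have h3 := eq_const (N := Nat.card Y * f) (⟨_, hk⟩ : k)
  refine (h3.mul (h1.mul h2.inv)).congr' fun s _ => ?_
  rw [val_induced hU hC hCU h0 (psi ^ s) (Y.pow_mem hpsi s), one_pow]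

theorem finsum_eq [Fintype Y] (F : DirichletCharacter ℂ f → ℂ) {m : ℕ} (e : Fin m ≃ Y) :
    ∑ᶠ psi ∈ (Y : Set (DirichletCharacter ℂ f)), F psi = ∑ a, F (e a) := by
  have h1 := finsum_set_coe_eq_finsum_mem (f := F) (Y : Set (DirichletCharacter ℂ f))
  rw [← h1]
  have h2 : ∑ᶠ i : ↥(Y : Set (DirichletCharacter ℂ f)), F i = ∑ i : Y, F i :=
    finsum_eq_sum_of_fintype _
  rw [h2]
  exact (e.sum_comp fun i : Y => F i).symm

/-- the theorem -/
theorem main (hf : Squarefree f) (hU : Region U) {C : Datum} (hC : IsInduced Y C)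
    (hCU : Continues U Y C) (hk : val C (1 : DirichletCharacter ℂ f) ∈ k)
    (h0 : val C (1 : DirichletCharacter ℂ f) ≠ 0) (A : Datum) (hAU : Continues U Y A)
    (B : ℕ → Datum) (hB : ∀ j < Nat.card Y, IsProduct A C j (B j))
    (hBU : ∀ j < Nat.card Y, Continues U Y (B j)) :
    (∀ psi ∈ Y, Equivariant k (normValue A.d A.Om (A.L f)) psi) ↔
      ∀ j < Nat.card Y, ∑ᶠ psi ∈ (Y : Set (DirichletCharacter ℂ f)),
        normValue (B j).d (B j).Om ((B j).L f) psi ∈ k := by
  classical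
  have hf0 : f ≠ 0 := hf.ne_zero
  have : NeZero f := ⟨hf0⟩
  have : Finite Y := inferInstance
  have : Fintype Y := Fintype.ofFinite Y
  have hcard : 0 < Nat.card Y := Nat.card_pos
  have hN : 0 < Nat.card Y * f := Nat.mul_pos hcard (Nat.pos_of_ne_zero hf0)
  have hYN : ∀ psi ∈ Y, psi ^ (Nat.card Y * f) = 1 := fun psi h => by
    rw [pow_mul, pow_card h, one_pow]
  have hbak : ∀ V : DirichletCharacter ℂ f → ℂ,
      (∀ psi ∈ Y, EQ k (Nat.card Y * f) (fun s => V (psi ^ s))) →
      ∑ᶠ psi ∈ (Y : Set (DirichletCharacter ℂ f)), V psi ∈ k := fun V hV =>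
    t_BAK29 t_gal k _ f V Y hN hf0 hYN fun psi h => equivariant_of_eq hN V psi (hYN psi h) (hV psi h)
  constructor
  · intro h j hj
    obtain ⟨r, hr, hr'⟩ := val_product hU (hB j hj) hAU hCU (hBU j hj)
    refine hbak (val (B j)) fun psi hpsi => ?_
    have h1 := eq_of_equivariant hN (val A) psi (hYN psi hpsi) (h psi hpsi)
    have h2 := (eq_val hf0 hU hC hCU hk h0 hpsi).pow j
    refine ((EQ.const r).mul (h1.mul h2)).congr' fun s _ => ?_
    exact (hr' _ (Y.pow_mem hpsi s)).symm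
  · intro h psi hpsi
    obtain ⟨e⟩ : Nonempty (Fin (Nat.card Y) ≃ Y) := ⟨(Finite.equivFin Y).symm⟩
    obtain ⟨c, hc⟩ := la k (fun a => val C (e a : DirichletCharacter ℂ f))
      (fun a => val A (e a : DirichletCharacter ℂ f)) (fun a b hab =>
        e.injective (Subtype.ext (val_injective hf hU hC hCU h0 (e a).2 (e b).2 hab)))
      (fun i => by
        have h1 := hbak (fun psi => val C psi ^ i) fun psi hpsi =>
          (eq_val hf0 hU hC hCU hk h0 hpsi).pow i
        rw [finsum_eq (Y := Y) _ e] at h1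
        exact h1)
      (fun j hj => by
        have h1 := h j hj
        obtain ⟨r, hr, hr'⟩ := val_product hU (hB j hj) hAU hCU (hBU j hj)
        rw [finsum_eq (Y := Y) _ e] at h1
        have h2 : ∑ a, val A (e a : DirichletCharacter ℂ f) *
            val C (e a : DirichletCharacter ℂ f) ^ j = (r : ℂ)⁻¹ *
            ∑ a, normValue (B j).d (B j).Om ((B j).L f) (e a : DirichletCharacter ℂ f) := by
          rw [Finset.mul_sum]
          refine Finset.sum_congr rfl fun a _ => ?_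
          have h3 := hr' (e a) (e a).2
          unfold val at h3 ⊢
          rw [h3, inv_mul_cancel_left₀ (Rat.cast_ne_zero.2 hr)]
        rw [h2]
        exact k.mul_mem (k.inv_mem (SubfieldClass.ratCast_mem k r)) h1)
    refine equivariant_of_eq hN _ psi (hYN psi hpsi) ?_
    have h1 : EQ k (Nat.card Y * f) (fun s => ∑ j : Fin (Nat.card Y),
        (c j : ℂ) * val C (psi ^ s) ^ (j : ℕ)) :=
      eq_sum _ fun j _ => (eq_const (c j)).mul ((eq_val hf0 hU hC hCU hk h0 hpsi).pow j)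
    refine h1.congr' fun s _ => ?_
    have h2 := hc (e.symm ⟨psi ^ s, Y.pow_mem hpsi s⟩)
    simp only [Equiv.apply_symm_apply] at h2
    exact h2.symm

end Pool.DTP
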