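import Mathlib

/-!
# DTP: Gauss sums of different characters modulo a prime

Let `O` be a domain with a homomorphism to a field of characteristic `p`, containing a primitive
`(p - 1)`-st root of unity. The Gauss sums of the powers `w^(-k)`, `0 ≤ k ≤ p - 2`, of the
Teichmueller character `w` are, up to elements outside the kernel, the `k`-th powers of the first
one, which lies in the kernel. Hence no power of one is a power of the other up to such elements.
-/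

set_option autoImplicit false
set_option linter.unusedSectionVars false

namespace Pool.DTP

open Finset

section prime

variable {O κ : Type*} [CommRing O] [IsDomain O] [Field κ] (ρ : O →+* κ) {p : ℕ}
  [hp : Fact p.Prime] [CharP κ p]

theorem prim_reduce (hp3 : 3 ≤ p) {ζ : O} (hζ : IsPrimitiveRoot ζ (p - 1)) :
    IsPrimitiveRoot (ρ ζ) (p - 1) := by
  obtain ⟨n, hn⟩ : ∃ n, p - 1 = n + 1 := ⟨p - 2, by omega⟩
  rw [hn] at hζ ⊢
  have h1 := congrArg ρ hζ.prod_one_sub_pow_eq_order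
  rw [map_prod] at h1
  have h2 : ρ ((n : O) + 1) ≠ 0 := by
    rw [map_add, map_natCast, map_one]
    intro h3
    have h4 : ((n + 1 : ℕ) : κ) = 0 := by
      push_cast
      exact h3
    have h5 := (CharP.cast_eq_zero_iff κ p (n + 1)).1 h4
    have h6 := Nat.le_of_dvd (by omega) h5
    omega
  rw [← h1, Finset.prod_ne_zero_iff] at h2
  refine IsPrimitiveRoot.mk_of_lt _ (Nat.succ_pos n) ?_ fun l hl hln h3 => ?_
  · rw [← map_pow, hζ.pow_eq_one, map_one]
  · refine h2 (l - 1) (Finset.mem_range.2 (by omega)) ?_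
    rw [Nat.sub_add_cancel (by omega), map_sub, map_pow, h3, map_one, sub_self]

/-- the inclusion of the prime field -/
noncomputable def cst (κ : Type*) [Field κ] (p : ℕ) [CharP κ p] : ZMod p →+* κ :=
  ZMod.castHom (dvd_refl p) κ

theorem exists_gen {z : κ} (hz : IsPrimitiveRoot z (p - 1)) :
    ∃ u : (ZMod p)ˣ, (∀ x, x ∈ Subgroup.zpowers u) ∧ cst κ p (u : ZMod p) = z := by
  have hp1 : 0 < p - 1 := by
    have := hp.out.two_le
    omega
  obtain ⟨g, hg⟩ := IsCyclic.exists_generator (α := (ZMod p)ˣ)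
  have hgo : orderOf g = p - 1 := by
    rw [orderOf_eq_card_of_forall_mem_zpowers hg, Nat.card_eq_fintype_card, ZMod.card_units]
  have hinj : Function.Injective (cst κ p) := (cst κ p).injective
  have h1 : IsPrimitiveRoot (cst κ p (g : ZMod p)) (p - 1) := by
    rw [← hgo]
    have h2 : IsPrimitiveRoot g (orderOf g) := IsPrimitiveRoot.orderOf g
    have h3 : IsPrimitiveRoot (g : ZMod p) (orderOf g) := IsPrimitiveRoot.coe_units_iff.2 h2
    exact h3.map_of_injective hinj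
  have : NeZero (p - 1) := ⟨hp1.ne'⟩
  obtain ⟨i, _, hi⟩ := h1.eq_pow_of_pow_eq_one hz.pow_eq_one
  have h4 : cst κ p ((g ^ i : (ZMod p)ˣ) : ZMod p) = z := by
    rw [Units.val_pow_eq_pow_val, map_pow, hi]
  refine ⟨g ^ i, ?_, h4⟩
  have h5 : orderOf (g ^ i) = p - 1 := by
    refine (IsPrimitiveRoot.eq_orderOf ?_).symm
    rw [← IsPrimitiveRoot.coe_units_iff]
    rw [← h4] at hz
    exact hz.of_map_of_injective hinj
  have h6 : Subgroup.zpowers (g ^ i) = ⊤ := by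
    refine Subgroup.eq_top_of_card_eq _ ?_
    rw [Nat.card_zpowers, h5, Nat.card_eq_fintype_card, ZMod.card_units]
  intro x
  rw [h6]
  exact Subgroup.mem_top x

theorem exists_teich (hp3 : 3 ≤ p) {ζ : O} (hζ : IsPrimitiveRoot ζ (p - 1)) :
    ∃ (w : MulChar (ZMod p) O) (u : (ZMod p)ˣ), (∀ x, x ∈ Subgroup.zpowers u) ∧
      w (u : ZMod p) = ζ ∧ ∀ x : ZMod p, ρ (w x) = cst κ p x := by
  obtain ⟨u, hu, hu2⟩ := exists_gen (prim_reduce ρ hp3 hζ)
  have hunit : IsUnit ζ := hζ.isUnit (by omega)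
  obtain ⟨z, hz⟩ := hunit
  have hz2 : z ∈ rootsOfUnity (Fintype.card (ZMod p)ˣ) O := by
    rw [mem_rootsOfUnity, ZMod.card_units]
    apply Units.ext
    rw [Units.val_pow_eq_pow_val, hz, hζ.pow_eq_one, Units.val_one]
  have hw := MulChar.ofRootOfUnity_spec hz2 hu
  rw [hz] at hw
  refine ⟨MulChar.ofRootOfUnity hz2 hu, u, hu, hw, fun x => ?_⟩
  by_cases hx : IsUnit x
  · obtain ⟨v, rfl⟩ := hx
    obtain ⟨i, rfl⟩ := (mem_powers_iff_mem_zpowers (x := u) (y := v)).2 (hu v)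
    change ρ (MulChar.ofRootOfUnity hz2 hu ((u ^ i : (ZMod p)ˣ) : ZMod p)) =
      cst κ p ((u ^ i : (ZMod p)ˣ) : ZMod p)
    rw [Units.val_pow_eq_pow_val, map_pow, map_pow, map_pow, hw, hu2]
  · rw [MulChar.map_nonunit _ hx, map_zero]
    have h1 : x = 0 := by
      by_contra h2
      exact hx (isUnit_iff_ne_zero.2 h2)
    rw [h1, map_zero]

/-- the sum over the prime field -/
theorem sum_pow_mul (hp3 : 3 ≤ p) (a : ℕ) (ha1 : 1 ≤ a) (ha2 : a ≤ p - 2) :
    ∑ x : ZMod p, x ^ (p - 2) * (1 - x) ^ a = (a : ZMod p) := by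
  have hs : ∀ e : ℕ, e ≠ 0 → ∑ x : ZMod p, x ^ e = if (p - 1) ∣ e then -1 else 0 := by
    intro e he
    have h1 := FiniteField.sum_pow_units (K := ZMod p) e
    rw [ZMod.card] at h1
    rw [← h1]
    have h2 : ∑ x : ZMod p, x ^ e = ∑ x ∈ Finset.univ.erase (0 : ZMod p), x ^ e := by
      rw [← Finset.add_sum_erase Finset.univ (fun x : ZMod p => x ^ e) (Finset.mem_univ 0),
        zero_pow he, zero_add]
    rw [h2]
    refine (Finset.sum_nbij (fun u : (ZMod p)ˣ => (u : ZMod p)) ?_ ?_ ?_ ?_).symm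
    · intro u _
      exact Finset.mem_erase.2 ⟨u.ne_zero, Finset.mem_univ _⟩
    · intro u _ v _ h
      exact Units.ext h
    · intro x hx
      have h3 : x ≠ 0 := by
        have := Finset.mem_coe.1 hx
        exact (Finset.mem_erase.1 this).1
      exact ⟨Units.mk0 x h3, Finset.mem_coe.2 (Finset.mem_univ _), rfl⟩
    · intro u _
      rfl
  have h1 : ∀ x : ZMod p, x ^ (p - 2) * (1 - x) ^ a =
      ∑ j ∈ Finset.range (a + 1), (-1) ^ j * (a.choose j : ZMod p) * x ^ (p - 2 + j) := by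
    intro x
    rw [sub_eq_add_neg, add_comm, add_pow, Finset.mul_sum]
    refine Finset.sum_congr rfl fun j _ => ?_
    rw [one_pow, neg_pow, pow_add]
    ring
  rw [Finset.sum_congr rfl fun x _ => h1 x, Finset.sum_comm]
  have h2 : ∀ j ∈ Finset.range (a + 1), ∑ x : ZMod p,
      (-1) ^ j * (a.choose j : ZMod p) * x ^ (p - 2 + j) = if j = 1 then (a : ZMod p) else 0 := by
    intro j hj
    rw [Finset.mem_range] at hj
    rw [← Finset.mul_sum, hs (p - 2 + j) (by omega)]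
    by_cases hj1 : j = 1
    · have h3 : p - 2 + j = p - 1 := by omega
      rw [if_pos hj1, h3, if_pos (dvd_refl _), hj1, Nat.choose_one_right]
      ring
    · rw [if_neg hj1, if_neg, mul_zero]
      rintro ⟨c, hc⟩
      rcases c with _ | _ | c
      · omega
      · omega
      · have h4 : (p - 1) * 2 ≤ (p - 1) * (c + 1 + 1) := Nat.mul_le_mul_left _ (by omega)
        omega
  rw [Finset.sum_congr rfl h2, Finset.sum_ite_eq' (Finset.range (a + 1)) 1, if_pos]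
  rw [Finset.mem_range]
  omega

theorem inv_val (hp3 : 3 ≤ p) {w : MulChar (ZMod p) O} (hw : ∀ x, ρ (w x) = cst κ p x)
    (x : ZMod p) : ρ (w⁻¹ x) = cst κ p (x ^ (p - 2)) := by
  rw [MulChar.inv_apply', hw]
  congr 1
  by_cases hx : x = 0
  · rw [hx, inv_zero, zero_pow (by omega)]
  · have h1 : x ^ (p - 1) = 1 := ZMod.pow_card_sub_one_eq_one hx
    have h2 : p - 1 = p - 2 + 1 := by omega
    rw [h2, pow_succ] at h1
    exact (eq_inv_of_mul_eq_one_left h1).symm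

theorem inv_pow_val (hp3 : 3 ≤ p) {w : MulChar (ZMod p) O} (hw : ∀ x, ρ (w x) = cst κ p x)
    (i : ℕ) (hi1 : 1 ≤ i) (hi2 : i + 3 ≤ p) (x : ZMod p) :
    ρ ((w⁻¹ ^ i) x) = cst κ p (x ^ (p - 1 - i)) := by
  rw [MulChar.pow_apply' _ (by omega), map_pow, inv_val ρ hp3 hw, ← map_pow]
  congr 1
  by_cases hx : x = 0
  · rw [hx, zero_pow (by omega), zero_pow (by omega), zero_pow (by omega)]
  · have h1 : x ^ (p - 1) = 1 := ZMod.pow_card_sub_one_eq_one hx
    have h2 : x ^ i ≠ 0 := pow_ne_zero _ hx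
    refine mul_right_cancel₀ h2 ?_
    rw [← pow_add, Nat.sub_add_cancel (by omega), h1, ← mul_pow, ← pow_succ]
    have h3 : p - 2 + 1 = p - 1 := by omega
    rw [h3, h1, one_pow]

theorem jac_reduce (hp3 : 3 ≤ p) {w : MulChar (ZMod p) O} (hw : ∀ x, ρ (w x) = cst κ p x)
    (i : ℕ) (hi1 : 1 ≤ i) (hi2 : i + 3 ≤ p) : ρ (jacobiSum w⁻¹ (w⁻¹ ^ i)) ≠ 0 := by
  have h1 : ρ (jacobiSum w⁻¹ (w⁻¹ ^ i)) = cst κ p ((p - 1 - i : ℕ) : ZMod p) := by
    unfold jacobiSum
    rw [← sum_pow_mul hp3 (p - 1 - i) (by omega) (by omega), map_sum, map_sum]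
    refine Finset.sum_congr rfl fun x _ => ?_
    rw [map_mul, inv_val ρ hp3 hw, inv_pow_val ρ hp3 hw i hi1 hi2, ← map_mul]
  rw [h1, map_natCast]
  intro h2
  have h3 := (CharP.cast_eq_zero_iff κ p (p - 1 - i)).1 h2
  have h4 := Nat.le_of_dvd (by omega) h3
  omega

theorem orderOf_teich {ζ : O} (hζ : IsPrimitiveRoot ζ (p - 1)) {w : MulChar (ZMod p) O}
    {u : (ZMod p)ˣ} (hu : ∀ x, x ∈ Subgroup.zpowers u) (hwu : w (u : ZMod p) = ζ) :
    orderOf w⁻¹ = p - 1 := by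
  rw [orderOf_inv]
  refine Nat.dvd_antisymm ?_ ?_
  · refine orderOf_dvd_of_pow_eq_one (MulChar.ext fun v => ?_)
    obtain ⟨i, rfl⟩ := (mem_powers_iff_mem_zpowers (x := u) (y := v)).2 (hu v)
    rw [MulChar.pow_apply_coe, MulChar.one_apply_coe]
    change w ((u ^ i : (ZMod p)ˣ) : ZMod p) ^ (p - 1) = 1
    rw [Units.val_pow_eq_pow_val, map_pow, hwu, ← pow_mul, mul_comm, pow_mul, hζ.pow_eq_one,
      one_pow]
  · refine hζ.dvd_of_pow_eq_one _ ?_
    rw [← hwu, ← MulChar.pow_apply_coe, pow_orderOf_eq_one, MulChar.one_apply_coe]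

theorem gauss_val (hp3 : 3 ≤ p) {w : MulChar (ZMod p) O} (hw : ∀ x, ρ (w x) = cst κ p x)
    (how : orderOf w⁻¹ = p - 1) {e : AddChar (ZMod p) O} (he : e ≠ 1) (k : ℕ) (hk : k ≤ p - 2) :
    ∃ v, ρ v ≠ 0 ∧ gaussSum w⁻¹ e ^ k = gaussSum (w⁻¹ ^ k) e * v := by
  rcases Nat.eq_zero_or_pos k with h0 | h0
  · refine ⟨-1, ?_, ?_⟩
    · rw [map_neg, map_one]
      exact neg_ne_zero.2 one_ne_zero
    · rw [h0, pow_zero, pow_zero, gaussSum_one_left he, neg_one_mul, neg_neg]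
  · refine ⟨∏ j ∈ Finset.Ico 1 k, jacobiSum w⁻¹ (w⁻¹ ^ j), ?_,
      gaussSum_pow_eq_prod_jacobiSum_aux w⁻¹ e h0 (by omega)⟩
    rw [map_prod, Finset.prod_ne_zero_iff]
    intro j hj
    rw [Finset.mem_Ico] at hj
    exact jac_reduce ρ hp3 hw j hj.1 (by omega)

theorem gauss_mem (hp3 : 3 ≤ p) {w : MulChar (ZMod p) O}
    (how : orderOf w⁻¹ = p - 1) {e : AddChar (ZMod p) O} (he : e.IsPrimitive) :
    ρ (gaussSum w⁻¹ e) = 0 := by
  have h1 := congrArg ρ (gaussSum_pow_eq_prod_jacobiSum (χ := w⁻¹) (ψ := e) (by omega) he)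
  rw [map_mul, map_mul, ZMod.card, map_natCast, CharP.cast_eq_zero, mul_zero, zero_mul,
    map_pow] at h1
  exact (pow_eq_zero_iff (by omega)).1 h1

theorem gauss_sep (hp3 : 3 ≤ p) (hpO : (p : O) ≠ 0) {w : MulChar (ZMod p) O}
    (hw : ∀ x, ρ (w x) = cst κ p x) (how : orderOf w⁻¹ = p - 1) {e : AddChar (ZMod p) O}
    (he : e.IsPrimitive) {m : ℕ} (hm : 0 < m) {a b : O} (ha : ρ a ≠ 0) (hb : ρ b ≠ 0) {k k' : ℕ}
    (hk : k ≤ p - 2) (hk' : k' ≤ p - 2)
    (h : a * gaussSum (w⁻¹ ^ k) e ^ m = b * gaussSum (w⁻¹ ^ k') e ^ m) : k = k' := by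
  have he1 : e ≠ 1 := by
    have h2 := he one_ne_zero
    rwa [AddChar.mulShift_one] at h2
  have hg : gaussSum w⁻¹ e ≠ 0 := by
    intro h0
    have h1 : w⁻¹ ≠ 1 := by
      intro h2
      rw [h2, orderOf_one] at how
      omega
    have h2 := gaussSum_mul_gaussSum_eq_card h1 he
    rw [h0, zero_mul, ZMod.card] at h2
    exact hpO h2.symm
  have key : ∀ {a b : O} {k k' : ℕ}, ρ a ≠ 0 → ρ b ≠ 0 → k ≤ p - 2 → k' ≤ p - 2 → k < k' →
      a * gaussSum (w⁻¹ ^ k) e ^ m = b * gaussSum (w⁻¹ ^ k') e ^ m → False := by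
    intro a b k k' ha hb hk hk' hlt h
    obtain ⟨v, hv, h1⟩ := gauss_val ρ hp3 hw how he1 k hk
    obtain ⟨v', hv', h2⟩ := gauss_val ρ hp3 hw how he1 k' hk'
    have h3 : a * v' ^ m * (gaussSum w⁻¹ e ^ k) ^ m =
        b * v ^ m * (gaussSum w⁻¹ e ^ (k' - k)) ^ m * (gaussSum w⁻¹ e ^ k) ^ m := by
      have h4 : gaussSum w⁻¹ e ^ k' = gaussSum w⁻¹ e ^ (k' - k) * gaussSum w⁻¹ e ^ k := by
        rw [← pow_add, Nat.sub_add_cancel hlt.le]
      calc a * v' ^ m * (gaussSum w⁻¹ e ^ k) ^ m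
          = (a * gaussSum (w⁻¹ ^ k) e ^ m) * v ^ m * v' ^ m := by rw [h1]; ring
        _ = b * v ^ m * (gaussSum (w⁻¹ ^ k') e * v') ^ m := by rw [h]; ring
        _ = b * v ^ m * (gaussSum w⁻¹ e ^ k') ^ m := by rw [h2]
        _ = _ := by rw [h4]; ring
    have h4 := mul_right_cancel₀ (pow_ne_zero _ (pow_ne_zero _ hg)) h3
    have h5 := congrArg ρ h4
    have h6 : ρ ((gaussSum w⁻¹ e ^ (k' - k)) ^ m) = 0 := by
      rw [map_pow, map_pow, gauss_mem ρ hp3 how he, zero_pow (by omega), zero_pow hm.ne']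
    rw [map_mul, map_mul _ _ ((gaussSum w⁻¹ e ^ (k' - k)) ^ m), h6, mul_zero, map_pow] at h5
    exact mul_ne_zero ha (pow_ne_zero _ hv') h5
  rcases lt_trichotomy k k' with h1 | h1 | h1
  · exact (key ha hb hk hk' h1 h).elim
  · exact h1
  · exact (key hb ha hk' hk h1 h.symm).elim

end prime

end Pool.DTP
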