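import Pool.Agent.H29.DTP.Sep1
import Pool.Agent.H29.DTP.Crt
import Pool.Agent.H29.DPX.EQ

/-!
# DTP: no two Gauss sums of the same squarefree level agree up to a root of unity
-/

set_option autoImplicit false

namespace Pool.DTP

open Complex Pool.DPC Pool.DPX

/-- an algebraic integer prime to `p` -/
def Un (p : ℕ) (z : ℂ) : Prop :=
  IsIntegral ℤ z ∧ ∃ y : ℂ, IsIntegral ℤ y ∧ ∃ c : ℕ, ¬ p ∣ c ∧ z * y = c

theorem Un.mul {p : ℕ} (hp : p.Prime) {z w : ℂ} (hz : Un p z) (hw : Un p w) : Un p (z * w) := by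
  obtain ⟨h1, y, h2, c, h3, h4⟩ := hz
  obtain ⟨h5, y', h6, c', h7, h8⟩ := hw
  refine ⟨h1.mul h5, y * y', h2.mul h6, c * c', fun h => ?_, ?_⟩
  · exact ((Nat.Prime.dvd_mul hp).1 h).elim h3 h7
  · rw [mul_mul_mul_comm, h4, h8, Nat.cast_mul]

theorem Un.pow {p : ℕ} (hp : p.Prime) {z : ℂ} (hz : Un p z) (m : ℕ) : Un p (z ^ m) := by
  induction m with
  | zero =>
    rw [pow_zero]
    refine ⟨isIntegral_one, 1, isIntegral_one, 1, ?_, ?_⟩
    · intro h
      exact hp.one_lt.ne' (Nat.dvd_one.1 h)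
    · push_cast
      ring
  | succ m ih =>
    rw [pow_succ]
    exact ih.mul hp hz

theorem un_root {p : ℕ} (hp : p.Prime) {z : ℂ} {n : ℕ} (hn : 0 < n) (hz : z ^ n = 1) :
    Un p z := by
  have h1 : IsIntegral ℤ z := IsIntegral.of_pow hn (by rw [hz]; exact isIntegral_one)
  refine ⟨h1, z ^ (n - 1), h1.pow _, 1, ?_, ?_⟩
  · intro h
    exact hp.one_lt.ne' (Nat.dvd_one.1 h)
  · rw [← pow_succ', Nat.sub_add_cancel hn, hz, Nat.cast_one]

theorem un_char {p : ℕ} (hp : p.Prime) {f : ℕ} (hf : f ≠ 0) (psi : DirichletCharacter ℂ f)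
    (x : ZMod f) (hx : IsUnit x) : Un p (psi x) := by
  have : NeZero f := ⟨hf⟩
  obtain ⟨u, rfl⟩ := hx
  refine un_root hp (Fintype.card_pos (α := (ZMod f)ˣ)) ?_
  rw [← map_pow, ← Units.val_pow_eq_pow_val, pow_card_eq_one, Units.val_one, map_one]

theorem isIntegral_char {f : ℕ} (hf : f ≠ 0) (psi : DirichletCharacter ℂ f) (x : ZMod f) :
    IsIntegral ℤ (psi x) := by
  by_cases hx : IsUnit x
  · exact (un_char Nat.prime_two hf psi x hx).1
  · rw [MulChar.map_nonunit _ hx]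
    exact isIntegral_zero

theorem isIntegral_add {n : ℕ} [NeZero n] (x : ZMod n) :
    IsIntegral ℤ (ZMod.stdAddChar (N := n) x) :=
  IsIntegral.of_pow (Nat.pos_of_ne_zero (NeZero.ne n)) (by
    rw [stdAddChar_pow (dvd_refl n)]
    exact isIntegral_one)

/-- the Gauss sum of a prime level different from `p` -/
theorem un_gauss {p : ℕ} (hp : p.Prime) {l : ℕ} (hl : l.Prime) (hpl : p ≠ l)
    (chi : DirichletCharacter ℂ l) : Un p (gaussTau chi) := by
  have : Fact l.Prime := ⟨hl⟩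
  have : NeZero l := ⟨hl.ne_zero⟩
  have hI : ∀ (chi : DirichletCharacter ℂ l) (e : AddChar (ZMod l) ℂ),
      (∀ x, IsIntegral ℤ (e x)) → IsIntegral ℤ (gaussSum chi e) := fun chi e he => by
    unfold gaussSum
    exact IsIntegral.sum _ fun x _ => (isIntegral_char hl.ne_zero chi x).mul (he x)
  rw [gaussTau_eq]
  refine ⟨hI _ _ isIntegral_add, ?_⟩
  by_cases h1 : chi = 1
  · refine ⟨-1, isIntegral_one.neg, 1, ?_, ?_⟩
    · intro h
      exact hp.one_lt.ne' (Nat.dvd_one.1 h)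
    · have h2 : (ZMod.stdAddChar (N := l)) ≠ 1 := by
        have h3 := ZMod.isPrimitive_stdAddChar l one_ne_zero
        rwa [AddChar.mulShift_one] at h3
      rw [h1, gaussSum_one_left h2]
      push_cast
      ring
  · refine ⟨gaussSum chi⁻¹ (ZMod.stdAddChar (N := l))⁻¹, hI _ _ fun x => ?_, l, ?_, ?_⟩
    · rw [AddChar.inv_apply]
      exact isIntegral_add _
    · intro h
      exact hpl ((Nat.prime_dvd_prime_iff_eq hp hl).1 h)
    · rw [gaussSum_mul_gaussSum_eq_card h1 (ZMod.isPrimitive_stdAddChar l), ZMod.card]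

theorem gaussTau_level_one (psi : DirichletCharacter ℂ 1) : gaussTau psi = 1 := by
  unfold gaussTau
  have h4 : ((0 : ℕ) : ZMod 1) = 1 := Subsingleton.elim _ _
  rw [Finset.sum_range_one, h4, map_one, Nat.cast_zero, mul_zero, zero_div, Complex.exp_zero,
    mul_one]

/-- the Gauss sum of a level prime to `p` -/
theorem un_gauss_cn (p : Nat.Primes) (φ : Ch) (D : Finset Nat.Primes) (hD : p ∉ D) :
    Un p (gaussTau (toDC D φ)) := by
  classical
  induction D using Finset.induction_on with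
  | empty =>
    have h1 : gaussTau (toDC ∅ φ) = 1 := gaussTau_level_one (toDC ∅ φ)
    rw [h1]
    exact un_root p.2 Nat.one_pos (pow_one 1)
  | insert l D hl ih =>
    have hpl : p ≠ l := fun h => hD (by rw [h]; exact Finset.mem_insert_self l D)
    have hpD : p ∉ D := fun h => hD (Finset.mem_insert_of_mem h)
    rw [gauss_insert hl]
    have hlD : ¬ (l : ℕ) ∣ cn D := fun h => hl ((TD.dvd_cn_iff D l).1 h)
    have hc : (l : ℕ).Coprime (cn D) := (Nat.Prime.coprime_iff_not_dvd l.2).2 hlD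
    refine (((un_char p.2 l.2.ne_zero (φ l) _ ?_).mul p.2
      (un_char p.2 (TD.cn_ne_zero D) (toDC D φ) _ ?_)).mul p.2
      (un_gauss p.2 l.2 (fun h => hpl (Subtype.ext h)) (φ l))).mul p.2 (ih hpD)
    · exact (ZMod.isUnit_iff_coprime _ _).2 hc.symm
    · exact (ZMod.isUnit_iff_coprime _ _).2 hc

end Pool.DTP
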