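import Pool.Agent.H29.DTP.Sep2

/-!
# DTP: no two Gauss sums of the same squarefree level agree up to a root of unity, conclusion
-/

set_option autoImplicit false

namespace Pool.DTP

open Complex Pool.DPC Pool.DPX

/-- a place of the algebraic integers over `p` -/
theorem exists_place (p : ℕ) (hp : p.Prime) : ∃ (κ : Type) (_ : Field κ) (_ : CharP κ p),
    Nonempty (integralClosure ℤ ℂ →+* κ) := by
  have hmax : (Ideal.span {(p : ℤ)}).IsMaximal :=
    PrincipalIdealRing.isMaximal_of_irreducible (Nat.prime_iff_prime_int.1 hp).irreducible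
  have hker : RingHom.ker (algebraMap ℤ (integralClosure ℤ ℂ)) ≤ Ideal.span {(p : ℤ)} := by
    intro x hx
    have h1 : (algebraMap ℤ (integralClosure ℤ ℂ)) x = 0 := hx
    have h2 : ((algebraMap ℤ (integralClosure ℤ ℂ) x : integralClosure ℤ ℂ) : ℂ) = 0 := by
      rw [h1]
      rfl
    have h3 : ((x : ℤ) : ℂ) = 0 := h2
    have h4 : x = 0 := by exact_mod_cast h3
    rw [h4]
    exact zero_mem _
  obtain ⟨Q, hQ, hQ2⟩ := Ideal.exists_ideal_over_maximal_of_isIntegral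
    (S := integralClosure ℤ ℂ) (Ideal.span {(p : ℤ)}) hker
  have hp2 : ((p : ℕ) : integralClosure ℤ ℂ ⧸ Q) = 0 := by
    have h1 : (p : ℤ) ∈ Q.comap (algebraMap ℤ (integralClosure ℤ ℂ)) := by
      rw [hQ2]
      exact Ideal.mem_span_singleton_self _
    have h2 : (algebraMap ℤ (integralClosure ℤ ℂ)) (p : ℤ) ∈ Q := h1
    have h3 := Ideal.Quotient.eq_zero_iff_mem.2 h2
    rw [map_natCast, map_natCast] at h3
    exact h3
  let _ := Ideal.Quotient.field Q
  exact ⟨integralClosure ℤ ℂ ⧸ Q, inferInstance, (CharP.charP_iff_prime_eq_zero hp).2 hp2,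
    ⟨Ideal.Quotient.mk Q⟩⟩

theorem un_ne {p : ℕ} {κ : Type} [Field κ] [CharP κ p] (ρ : integralClosure ℤ ℂ →+* κ)
    {z : integralClosure ℤ ℂ} (hz : Un p (z : ℂ)) : ρ z ≠ 0 := by
  obtain ⟨_, y, hy, c, hc, h⟩ := hz
  intro h0
  have h1 : z * ⟨y, hy⟩ = (c : integralClosure ℤ ℂ) := by
    apply Subtype.ext
    push_cast
    exact h
  have h2 := congrArg ρ h1
  rw [map_mul, h0, zero_mul, map_natCast] at h2
  exact hc ((CharP.cast_eq_zero_iff κ p c).1 h2.symm)

theorem sep_prime {p : ℕ} (hp : p.Prime) (chi chi' : DirichletCharacter ℂ p) {a b : ℂ}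
    (ha : Un p a) (hb : Un p b) {m : ℕ} (hm : 0 < m)
    (h : a * gaussTau chi ^ m = b * gaussTau chi' ^ m) : chi = chi' := by
  have : Fact p.Prime := ⟨hp⟩
  have : NeZero p := ⟨hp.ne_zero⟩
  by_cases hp3 : 3 ≤ p
  swap
  · have h2 : p = 2 := by
      have := hp.two_le
      omega
    subst h2
    refine MulChar.ext fun u => ?_
    have h3 : u = 1 := Subsingleton.elim _ _
    rw [h3, Units.val_one, map_one, map_one]
  obtain ⟨κ, _, _, ⟨ρ⟩⟩ := exists_place p hp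
  have hι : Function.Injective (algebraMap (integralClosure ℤ ℂ) ℂ) :=
    FaithfulSMul.algebraMap_injective _ _
  have hc : ∀ x : integralClosure ℤ ℂ, algebraMap (integralClosure ℤ ℂ) ℂ x = (x : ℂ) :=
    fun _ => rfl
  -- roots of unity
  have hζ0 := Complex.isPrimitiveRoot_exp (p - 1) (by omega)
  have hξ0 := Complex.isPrimitiveRoot_exp p hp.ne_zero
  obtain ⟨ζ, hζe⟩ : ∃ ζ : integralClosure ℤ ℂ, algebraMap (integralClosure ℤ ℂ) ℂ ζ =
      Complex.exp (2 * Real.pi * Complex.I / ((p - 1 : ℕ) : ℂ)) :=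
    ⟨⟨_, hζ0.isIntegral (by omega)⟩, rfl⟩
  obtain ⟨ξ, hξe⟩ : ∃ ξ : integralClosure ℤ ℂ, algebraMap (integralClosure ℤ ℂ) ℂ ξ =
      Complex.exp (2 * Real.pi * Complex.I / (p : ℂ)) :=
    ⟨⟨_, hξ0.isIntegral hp.pos⟩, rfl⟩
  rw [← hζe] at hζ0
  rw [← hξe] at hξ0
  have hζ : IsPrimitiveRoot ζ (p - 1) := hζ0.of_map_of_injective hι
  have hξ : IsPrimitiveRoot ξ p := hξ0.of_map_of_injective hι
  obtain ⟨w, u, hu, hwu, hw⟩ := exists_teich ρ hp3 hζ
  have how := orderOf_teich hζ hu hwu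
  obtain ⟨e, he, hev⟩ : ∃ e : AddChar (ZMod p) (integralClosure ℤ ℂ), e.IsPrimitive ∧
      ∀ x, algebraMap (integralClosure ℤ ℂ) ℂ (e x) = ZMod.stdAddChar x := by
    refine ⟨_, AddChar.zmodChar_primitive_of_primitive_root p hξ, fun x => ?_⟩
    rw [AddChar.zmodChar_apply, map_pow, hξe]
    have h1 := ZMod.stdAddChar_coe (N := p) ((x.val : ℕ) : ℤ)
    rw [Int.cast_natCast, Int.cast_natCast, ZMod.natCast_zmod_val] at h1
    rw [h1, ← Complex.exp_nat_mul]
    congr 1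
    ring
  -- every character is a power
  have hr : IsPrimitiveRoot (algebraMap (integralClosure ℤ ℂ) ℂ (w⁻¹ (u : ZMod p))) (p - 1) := by
    have h1 : w⁻¹ (u : ZMod p) * w (u : ZMod p) = 1 := by
      rw [← MulChar.mul_apply, inv_mul_cancel, MulChar.one_apply_coe]
    have h2 : algebraMap (integralClosure ℤ ℂ) ℂ (w⁻¹ (u : ZMod p)) =
        (algebraMap (integralClosure ℤ ℂ) ℂ ζ)⁻¹ := by
      rw [hwu] at h1
      refine eq_inv_of_mul_eq_one_left ?_
      rw [← map_mul, h1, map_one]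
    rw [h2]
    exact hζ0.inv
  have hchar : ∀ chi : DirichletCharacter ℂ p, ∃ i, i ≤ p - 2 ∧
      chi = (w⁻¹ ^ i).ringHomComp (algebraMap (integralClosure ℤ ℂ) ℂ) ∧
      gaussTau chi = algebraMap (integralClosure ℤ ℂ) ℂ (gaussSum (w⁻¹ ^ i) e) := by
    intro chi
    have h1 : chi (u : ZMod p) ^ (p - 1) = 1 := by
      rw [← map_pow, ← Units.val_pow_eq_pow_val, ZMod.units_pow_card_sub_one_eq_one,
        Units.val_one, map_one]
    have : NeZero (p - 1) := ⟨by omega⟩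
    obtain ⟨i, hi, hi2⟩ := hr.eq_pow_of_pow_eq_one h1
    have h2 : chi = (w⁻¹ ^ i).ringHomComp (algebraMap (integralClosure ℤ ℂ) ℂ) := by
      rw [MulChar.eq_iff hu, MulChar.ringHomComp_apply, MulChar.pow_apply_coe, map_pow, hi2]
    refine ⟨i, by omega, h2, ?_⟩
    rw [gaussTau_eq, gaussSum, gaussSum, map_sum]
    refine Finset.sum_congr rfl fun x _ => ?_
    rw [map_mul, hev, ← MulChar.ringHomComp_apply, ← h2]
  obtain ⟨i, hi, hi1, hi2⟩ := hchar chi
  obtain ⟨j, hj, hj1, hj2⟩ := hchar chi'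
  rw [hi2, hj2] at h
  have h' : (⟨a, ha.1⟩ : integralClosure ℤ ℂ) * gaussSum (w⁻¹ ^ i) e ^ m =
      ⟨b, hb.1⟩ * gaussSum (w⁻¹ ^ j) e ^ m := by
    apply hι
    rw [map_mul, map_mul, map_pow, map_pow]
    exact h
  have hp0 : ((p : ℕ) : integralClosure ℤ ℂ) ≠ 0 := by
    exact_mod_cast hp.ne_zero
  have hij := gauss_sep ρ hp3 hp0 hw how he hm (un_ne ρ (z := ⟨a, ha.1⟩) ha)
    (un_ne ρ (z := ⟨b, hb.1⟩) hb) hi hj h'
  rw [hi1, hj1, hij]

/-- the theorem on Gauss sums -/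
theorem sep {f : ℕ} (hf : Squarefree f) (psi psi' : DirichletCharacter ℂ f) {m : ℕ} (hm : 0 < m)
    (h : gaussTau psi ^ m = gaussTau psi' ^ m) : psi = psi' := by
  classical
  obtain ⟨C, rfl⟩ := TD.exists_cn f hf
  obtain ⟨φ, hφ, rfl⟩ := TD.toDC_surj C psi
  obtain ⟨φ', hφ', rfl⟩ := TD.toDC_surj C psi'
  have key : ∀ p ∈ C, φ p = φ' p := by
    intro p hp
    obtain ⟨D, hD⟩ : ∃ D, D = C.erase p := ⟨_, rfl⟩
    have hpD : p ∉ D := by
      rw [hD]
      exact Finset.notMem_erase p C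
    have hC : C = insert p D := by
      rw [hD, Finset.insert_erase hp]
    rw [hC, gauss_insert hpD, gauss_insert hpD] at h
    have hpc : ¬ (p : ℕ) ∣ cn D := fun h => hpD ((TD.dvd_cn_iff D p).1 h)
    have hc : (p : ℕ).Coprime (cn D) := (Nat.Prime.coprime_iff_not_dvd p.2).2 hpc
    have hU : ∀ φ : Ch, Un p ((φ p (cn D : ZMod (p : ℕ)) *
        toDC D φ ((p : ℕ) : ZMod (cn D)) * gaussTau (toDC D φ)) ^ m) := fun φ =>
      (((un_char p.2 p.2.ne_zero (φ p) _ ((ZMod.isUnit_iff_coprime _ _).2 hc.symm)).mul p.2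
        (un_char p.2 (TD.cn_ne_zero D) (toDC D φ) _ ((ZMod.isUnit_iff_coprime _ _).2 hc))).mul
        p.2 (un_gauss_cn p φ D hpD)).pow p.2 m
    refine sep_prime p.2 (φ p) (φ' p) (hU φ) (hU φ') hm ?_
    rw [← mul_pow, ← mul_pow]
    calc (φ p (cn D : ZMod (p : ℕ)) * toDC D φ ((p : ℕ) : ZMod (cn D)) *
          gaussTau (toDC D φ) * gaussTau (φ p)) ^ m
        = (φ p (cn D : ZMod (p : ℕ)) * toDC D φ ((p : ℕ) : ZMod (cn D)) * gaussTau (φ p) *
          gaussTau (toDC D φ)) ^ m := by ring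
      _ = (φ' p (cn D : ZMod (p : ℕ)) * toDC D φ' ((p : ℕ) : ZMod (cn D)) * gaussTau (φ' p) *
          gaussTau (toDC D φ')) ^ m := h
      _ = _ := by ring
  have hφφ : φ = φ' := by
    funext l
    by_cases hl : l ∈ C
    · exact key l hl
    · have h1 : φ l = 1 := by
        by_contra h2
        exact hl (hφ h2)
      have h2 : φ' l = 1 := by
        by_contra h2
        exact hl (hφ' h2)
      rw [h1, h2]
  rw [hφφ]

end Pool.DTP
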