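import Pool.Agent.H29.DTP.Defs
import Pool.Agent.H29.DTP.LA
import Pool.Agent.H29.DTP.Sep3
import Pool.Agent.H29.DPX.Base
import Pool.Agent.H29.DPC.BAK

/-!
# DTP: (i) and (ii) for one field from the traces of the products
-/

set_option autoImplicit false

namespace Pool.DTP

open Polynomial Complex Pool.DPC Pool.DPX

section general

variable {k : IntermediateField ℚ ℂ} {N : ℕ}

theorem eq_add {v w : ℕ → ℂ} (hv : EQ k N v) (hw : EQ k N w) : EQ k N (fun s => v s + w s) := by
  obtain ⟨x, hx, hx'⟩ := hv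
  obtain ⟨y, hy, hy'⟩ := hw
  refine ⟨x + y, ?_, fun g s hg => ?_⟩
  · push_cast
    rw [hx, hy]
  · rw [map_add]
    push_cast
    rw [hx' g s hg, hy' g s hg]

theorem eq_const (c : k) : EQ k N (fun _ => (c : ℂ)) := by
  refine ⟨algebraMap k (cyc k N) c, rfl, fun g s _ => ?_⟩
  rw [AlgEquiv.commutes]
  rfl

theorem eq_sum {ι : Type*} (S : Finset ι) {v : ι → ℕ → ℂ} (hv : ∀ i ∈ S, EQ k N (v i)) :
    EQ k N (fun s => ∑ i ∈ S, v i s) := by
  classical
  induction S using Finset.induction_on with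
  | empty =>
    simp only [Finset.sum_empty]
    have h := eq_const (k := k) (N := N) 0
    exact h.congr' fun s _ => rfl
  | insert i S hi ih =>
    simp only [Finset.sum_insert hi]
    exact eq_add (hv i (Finset.mem_insert_self i S))
      (ih fun j hj => hv j (Finset.mem_insert_of_mem hj))

theorem eq_of_equivariant {f : ℕ} (hN : 0 < N) (V : DirichletCharacter ℂ f → ℂ)
    (psi : DirichletCharacter ℂ f) (hpsi : psi ^ N = 1) (h : Equivariant k V psi) :
    EQ k N (fun s => V (psi ^ s)) := by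
  obtain ⟨hgal, hfin, hpow, hval, hext⟩ := t_gal k N hN
  have hK : valueField k psi ≤ cyc k N := hval f psi hpsi
  obtain ⟨h1, h2⟩ := h
  refine ⟨⟨_, hK h1⟩, ?_, fun g s hg => ?_⟩
  · beta_reduce
    rw [pow_one]
  · have h3 := h2 (((cyc k N).val.comp (g : cyc k N →ₐ[k] cyc k N)).comp
      (IntermediateField.inclusion hK)) (psi ^ s) ?_
    · exact h3
    · intro a
      by_cases ha : IsUnit a
      · obtain ⟨u, rfl⟩ := ha
        exact (FLDaux.pow_val hN hpsi hg hK u).symm
      · have h4 : psi a = 0 := MulChar.map_nonunit psi ha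
        have h5 : (psi ^ s) a = 0 := MulChar.map_nonunit (psi ^ s) ha
        rw [h5]
        have h6 : (⟨psi a, IntermediateField.subset_adjoin _ _ (Set.mem_range_self a)⟩ :
            valueField k psi) = 0 := Subtype.ext h4
        rw [h6, map_zero]

theorem equivariant_of_eq {f : ℕ} (hN : 0 < N) (V : DirichletCharacter ℂ f → ℂ)
    (psi : DirichletCharacter ℂ f) (hpsi : psi ^ N = 1) (h : EQ k N (fun s => V (psi ^ s))) :
    Equivariant k V psi := by
  refine t_FLD t_gal k N f _ psi hN hpsi fun g s hg π => ?_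
  obtain ⟨x, hx, hx'⟩ := h
  have h1 : V psi = x • (1 : ℂ) := by
    beta_reduce at hx
    rw [pow_one] at hx
    rw [← hx, Algebra.smul_def, mul_one]
    rfl
  rw [h1, map_smul, smul_eq_mul, map_mul]
  push_cast
  rw [hx' g s hg, mul_comm]

end general

/-- uniqueness of the continuation -/
theorem eq_one {U : Set ℂ} (hU : Region U) {F G : ℂ → ℂ} (hF : DifferentiableOn ℂ F U)
    (hG : DifferentiableOn ℂ G U) (h : ∀ z : ℂ, 3 / 2 < z.re → F z = G z) : F 1 = G 1 := by
  have h2U : (2 : ℂ) ∈ U := hU.half 2 (by norm_num)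
  have hev : F =ᶠ[nhds (2 : ℂ)] G := by
    have hopen : IsOpen {z : ℂ | 3 / 2 < z.re} := isOpen_lt continuous_const Complex.continuous_re
    have hmem : (2 : ℂ) ∈ {z : ℂ | 3 / 2 < z.re} := by
      show (3 : ℝ) / 2 < (2 : ℂ).re
      norm_num
    filter_upwards [hopen.mem_nhds hmem] with z hz
    exact h z hz
  have hEq := (hF.analyticOnNhd hU.op).eqOn_of_preconnected_of_eventuallyEq
    (hG.analyticOnNhd hU.op) hU.conn h2U hev
  exact hEq hU.one

theorem L_induced {f : ℕ} {Y : Subgroup (DirichletCharacter ℂ f)} {U : Set ℂ} (hU : Region U)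
    {C : Datum} (hC : IsInduced Y C) (hCU : Continues U Y C) (psi : DirichletCharacter ℂ f)
    (hpsi : psi ∈ Y) : C.L f psi 1 = C.L f 1 1 := by
  have h1 := hCU psi hpsi
  have h2 := hCU 1 Y.one_mem
  refine eq_one hU h1.1 h2.1 fun z hz => ?_
  have h3 := h1.2 z hz
  have h4 := h2.2 z hz
  have h5 : (fun l : {l : ℕ // l.Prime ∧ ¬ l ∣ f} => eulerFactor C.P psi z l) =
      fun l : {l : ℕ // l.Prime ∧ ¬ l ∣ f} =>
        eulerFactor C.P (1 : DirichletCharacter ℂ f) z l := by
    funext l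
    unfold eulerFactor
    rw [hC.fac psi hpsi l l.2.1 l.2.2, ← hC.fac 1 Y.one_mem l l.2.1 l.2.2]
  rw [h5] at h3
  exact h3.unique h4

theorem L_product {f : ℕ} {Y : Subgroup (DirichletCharacter ℂ f)} {U : Set ℂ} (hU : Region U)
    {A C B : Datum} {j : ℕ} (hB : IsProduct A C j B) (hAU : Continues U Y A)
    (hCU : Continues U Y C) (hBU : Continues U Y B) (psi : DirichletCharacter ℂ f)
    (hpsi : psi ∈ Y) : B.L f psi 1 = A.L f psi 1 * C.L f psi 1 ^ j := by
  have h1 := hAU psi hpsi
  have h2 := hCU psi hpsi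
  have h3 := hBU psi hpsi
  refine eq_one (G := fun z => A.L f psi z * C.L f psi z ^ j) hU h3.1 (h1.1.mul (h2.1.pow j))
    fun z hz => ?_
  have h4 := h1.2 z hz
  have h5 := h2.2 z hz
  have h6 := h3.2 z hz
  have h7 : (fun l : {l : ℕ // l.Prime ∧ ¬ l ∣ f} => eulerFactor B.P psi z l) =
      fun l : {l : ℕ // l.Prime ∧ ¬ l ∣ f} =>
        eulerFactor A.P psi z l * eulerFactor C.P psi z l ^ j := by
    funext l
    unfold eulerFactor
    rw [hB.fac l l.2.1, map_mul, map_pow, mul_inv, inv_pow]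
  rw [h7] at h6
  have h8 : HasProd (fun l : {l : ℕ // l.Prime ∧ ¬ l ∣ f} => eulerFactor C.P psi z l ^ j)
      (C.L f psi z ^ j) := by
    have h9 := hasProd_prod (s := Finset.range j) fun i (_ : i ∈ Finset.range j) => h5
    simpa only [Finset.prod_const, Finset.card_range] using h9
  exact h6.unique (h4.mul h8)

end Pool.DTP
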